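import Pool.Agent.N121.AH.Arr
import Pool.Agent.N121.OH.Null
import Pool.Agent.N121.OH.Pol

/-!
# Relations over number fields between the periods of all hyperelliptic curves over these fields
-/

set_option autoImplicit false
set_option linter.unusedSectionVars false

open Complex Set Filter Topology NumberField Matrix

namespace Pool.Agent.N121.KH

open Pool.Agent.Y118.HP (jm jm_apply jm_det jm_transpose jm_diag jm_map qm bm bm_eq aeval_int_map)
open Pool.Agent.Y890.MV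
open Pool.Agent.Y890.SM
open Pool.Agent.Y124 (Cov)
open Pool.Agent.N121.OH (arv ptS TorS le_of_mem Un mem_Un_of_sep cp)
open Pool.Agent.N121.AH

variable {ι : Type} {n : ι → ℕ}

section sums

variable {σ A : Type} [Fintype A] [DecidableEq σ]

theorem sum_of_inj {R : Type} [CommSemiring R] (P : MvPolynomial σ R) (f : A → (σ →₀ ℕ)) (hf : Function.Injective f)
    (hs : ∀ s ∈ P.support, ∃ a, f a = s) (g : (σ →₀ ℕ) → R → ℂ) (hg : ∀ s, g s 0 = 0) :
    ∑ s ∈ P.support, g s (P.coeff s) = ∑ a : A, g (f a) (P.coeff (f a)) := by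
  classical
  rw [← Finset.sum_image (s := (Finset.univ : Finset A)) (g := f)
    (f := fun s => g s (P.coeff s)) (fun a _ b _ h => hf h)]
  refine Finset.sum_subset ?_ ?_
  · intro s h
    obtain ⟨a, ha⟩ := hs s h
    exact Finset.mem_image.2 ⟨a, Finset.mem_univ _, ha⟩
  · intro s _ h
    rw [MvPolynomial.notMem_support_iff.1 h, hg]

end sums

variable [Fintype ι] [DecidableEq ι] {m : ι → ℕ}

/-- the exponents -/
noncomputable def e1 {k : ℕ} (l : Ix m → Fin (k + 1)) : Ix m →₀ ℕ := Finsupp.equivFunOnFinite.symm fun y => (l y : ℕ)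

/-- the exponents with a power of the multiplier -/
noncomputable def e2 {k : ℕ} (p : (Ix m → Fin (k + 1)) × Fin k) : Option (Ix m) →₀ ℕ :=
  Finsupp.equivFunOnFinite.symm fun o => o.elim (p.2 : ℕ) fun y => (p.1 y : ℕ)

theorem e1_inj {k : ℕ} : Function.Injective (e1 (m := m) (k := k)) := by
  intro l l' h
  funext y
  exact Fin.ext (DFunLike.congr_fun h y)

theorem e2_inj {k : ℕ} : Function.Injective (e2 (m := m) (k := k)) := by
  intro p p' h
  refine Prod.ext ?_ ?_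
  · funext y
    exact Fin.ext (DFunLike.congr_fun h (some y))
  · exact Fin.ext (DFunLike.congr_fun h none)

variable {R : Type} [CommRing R]

/-- the value of a polynomial in the entries -/
theorem ev1 {k : ℕ} (φ : R →+* ℂ) (P : MvPolynomial (Ix m) R) (hd : P.totalDegree ≤ k)
    (Y : ∀ i, Matrix (Fin (m i)) (Fin (m i)) ℂ) :
    MvPolynomial.eval (fun q : Ix m => Y q.1 q.2.1 q.2.2) (P.map φ) =
      ∑ l : Ix m → Fin (k + 1), φ (P.coeff (e1 l)) * ∏ y : Ix m, (Y y.1 y.2.1 y.2.2) ^ (l y : ℕ) := by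
  rw [MvPolynomial.eval_map, MvPolynomial.eval₂_eq']
  exact sum_of_inj P e1 e1_inj (fun s hs => ⟨fun y => ⟨s y, Nat.lt_succ_of_le (le_of_mem hd hs y)⟩, by
    ext y
    rfl⟩) (fun s r => φ r * ∏ y : Ix m, (Y y.1 y.2.1 y.2.2) ^ (s y)) (fun s => by simp)

/-- the value of a polynomial in the entries and the multiplier -/
theorem ev2 {k : ℕ} (φ : R →+* ℂ) (P : MvPolynomial (Option (Ix m)) R) (hd : P.totalDegree < k)
    (Y : ∀ i, Matrix (Fin (m i)) (Fin (m i)) ℂ) (μ : ℂ) :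
    MvPolynomial.eval (ptS Y μ) (P.map φ) =
      ∑ l : Ix m → Fin (k + 1), (∑ a : Fin k, μ ^ (a : ℕ) * φ (P.coeff (e2 (l, a)))) *
        ∏ y : Ix m, (Y y.1 y.2.1 y.2.2) ^ (l y : ℕ) := by
  rw [MvPolynomial.eval_map, MvPolynomial.eval₂_eq']
  have h1 := sum_of_inj P (e2 (m := m) (k := k)) e2_inj (fun s hs => by
    have hs1 : ∀ y, s y < k := fun y => lt_of_le_of_lt (le_of_mem le_rfl hs y) hd
    refine ⟨(fun y => ⟨s (some y), (hs1 _).trans (Nat.lt_succ_self _)⟩, ⟨s none, hs1 _⟩), ?_⟩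
    ext y
    cases y <;> rfl) (fun s r => φ r * ∏ o : Option (Ix m), (ptS Y μ o) ^ (s o)) (fun s => by simp)
  refine h1.trans ?_
  rw [Fintype.sum_prod_type]
  refine Finset.sum_congr rfl fun l _ => ?_
  rw [Finset.sum_mul]
  refine Finset.sum_congr rfl fun a _ => ?_
  rw [Fintype.prod_option]
  show φ (P.coeff (e2 (l, a))) * (μ ^ (a : ℕ) * ∏ y : Ix m, (Y y.1 y.2.1 y.2.2) ^ (l y : ℕ)) = _
  ring

/-- the relations over `K` at a point -/
def GoodK (n : ι → ℕ) (k : ℕ) (K : Type) [Field K] [NumberField K] (io : K →+* ℂ) (H : ℝ) (ξ : Fin k → ℂ)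
    (X : ∀ i, Matrix (Fin (mi n i)) (Fin (mi n i)) ℂ) : Prop :=
  (∀ P : MvPolynomial (Option (Ix (mi n))) (𝓞 K), P.totalDegree < k →
      (∀ s (ψ : K →+* ℂ), ‖ψ (algebraMap (𝓞 K) K (P.coeff s))‖ ≤ H) →
      MvPolynomial.eval (ptS X tpi) (P.map (io.comp (algebraMap (𝓞 K) K))) = 0 →
      ∀ x ∈ TorG n, MvPolynomial.eval (ptS x.1 x.2) (P.map (io.comp (algebraMap (𝓞 K) K))) = 0) ∧
  ∀ P : Fin k → MvPolynomial (Ix (mi n)) (𝓞 K), (∀ b, (P b).totalDegree ≤ k) →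
      (∀ b s (ψ : K →+* ℂ), ‖ψ (algebraMap (𝓞 K) K ((P b).coeff s))‖ ≤ H) →
      ∑ b, ξ b * MvPolynomial.eval (fun q : Ix (mi n) => X q.1 q.2.1 q.2.2)
        ((P b).map (io.comp (algebraMap (𝓞 K) K))) = 0 →
      ∀ Y, (Y, tpi) ∈ TorG n → ∑ b, ξ b * MvPolynomial.eval (fun q : Ix (mi n) => Y q.1 q.2.1 q.2.2)
        ((P b).map (io.comp (algebraMap (𝓞 K) K))) = 0

theorem torsor_eq (n : ι → ℕ) (x : (Σ i, Fin (n i + 2)) → ℂ) : (ahF n).torsor x = TorG n := by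
  unfold SympFam.torsor TorG
  ext p
  simp only [Set.mem_ofPred_eq]
  refine and_congr_right fun _ => forall_congr' fun i => ?_
  rw [Q_eval]
  show _ = p.2 ^ 1 • (bm ℚ (mi n i)).map (algebraMap ℚ ℂ) ↔ _
  rw [pow_one]

theorem good_of_generic {k : ℕ} {K : Type} [Field K] [NumberField K] {io : K →+* ℂ} {ξ : Fin k → ℂ} {T : ℝ}
    {x : (Σ i, Fin (n i + 2)) → ℂ} (h : (ahF n).Generic k K io ξ T x) :
    GoodK n k K io (T ^ k) ξ (fun i => PA (pj x i)) := by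
  have hP : (fun i => (ahF n).P i x) = fun i => PA (pj x i) := rfl
  refine ⟨fun P hd hc h0 z hz => ?_, fun P hd hc h0 Y hY => ?_⟩
  · have h1 := (h (fun l a => P.coeff (e2 (l, a))) (fun l a φ => hc _ φ)).2
    rw [torsor_eq, hP] at h1
    have h2 : ∀ (Z : ∀ i, Matrix (Fin (mi n i)) (Fin (mi n i)) ℂ) (μ : ℂ),
        MvPolynomial.eval (ptS Z μ) (P.map (io.comp (algebraMap (𝓞 K) K))) =
        poly (fun l a => io ((P.coeff (e2 (l, a)) : 𝓞 K) : K)) (fun a : Fin k => μ ^ (a : ℕ)) Z := by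
      intro Z μ
      rw [ev2 _ P hd]
      unfold poly
      simp only [RingHom.comp_apply]
    rw [h2] at h0
    rw [h2]
    exact h1 h0 z hz
  · have h1 := (h (fun l a => (P a).coeff (e1 l)) (fun l a φ => hc _ _ φ)).1
    rw [torsor_eq, hP] at h1
    have h2 : ∀ Z : ∀ i, Matrix (Fin (mi n i)) (Fin (mi n i)) ℂ,
        ∑ b, ξ b * MvPolynomial.eval (fun q : Ix (mi n) => Z q.1 q.2.1 q.2.2)
          ((P b).map (io.comp (algebraMap (𝓞 K) K))) =
        poly (fun l a => io (((P a).coeff (e1 l) : 𝓞 K) : K)) ξ Z := by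
      intro Z
      unfold poly
      simp only [fun b => ev1 (io.comp (algebraMap (𝓞 K) K)) (P b) (hd b) Z, Finset.mul_sum, Finset.sum_mul,
        RingHom.comp_apply]
      rw [Finset.sum_comm]
      refine Finset.sum_congr rfl fun l _ => Finset.sum_congr rfl fun a _ => ?_
      rw [mul_assoc]
    have h0' := (h2 (fun i => PA (pj x i))).symm.trans h0
    rw [h2]
    exact h1 h0' Y hY

/-- the domain -/
def Dm (n : ι → ℕ) : Set ((Σ i, Fin (n i + 2)) → ℂ) :=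
  {a | ∀ i, a ⟨i, Fin.last (n i + 1)⟩ / (1 + I) ∈ slitPlane ∧ ∃ e : Fin (n i + 1) → ℂ,
    fp (pj a i) = Polynomial.C (a ⟨i, Fin.last (n i + 1)⟩) * OH.rp e ∧
      ∀ r s, r < s → (e r).re + (e r).im < (e s).re + (e s).im}

theorem re_div (z : ℂ) : (u0⁻¹ * z).re = (z.re + z.im) / 2 := by
  unfold u0
  rw [Complex.mul_re, Complex.inv_re, Complex.inv_im]
  simp [Complex.normSq_apply]
  ring

theorem Dm_eq (n : ι → ℕ) : Dm n = UU n := by
  ext a
  constructor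
  · intro ha i
    obtain ⟨h1, e, h2, h3⟩ := ha i
    have h0 : pj a i (Fin.last (n i + 1)) ≠ 0 := by
      have h4 := slitPlane_ne_zero h1
      intro h5
      apply h4
      have h6 : a ⟨i, Fin.last (n i + 1)⟩ = 0 := h5
      rw [h6, zero_div]
    refine ⟨h1, mem_Un_of_sep u0_ne (z := e) ?_ ?_⟩
    · have h4 := fp_eq h0
      rw [h4] at h2
      exact mul_left_cancel₀ (Polynomial.C_ne_zero.2 h0) h2
    · intro r s hrs
      simp only [re_div] at hrs
      by_contra hne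
      rcases lt_or_gt_of_ne hne with h | h
      · have := h3 r s h
        linarith
      · have := h3 s r h
        linarith
  · intro ha i
    exact ⟨(ha i).1, er (pj a i), fp_er (ha i), er_order (ha i)⟩

/-- the exceptional points over `K` -/
def ExK (n : ι → ℕ) (k : ℕ) (K : Type) [Field K] [NumberField K] (io : K →+* ℂ) (ξ : Fin k → ℂ) (T : ℝ) :
    Set ((Σ i, Fin (n i + 2)) → K) :=
  {a | (∀ q, Y120.HtLe K T (a q)) ∧ (fun q => io (a q)) ∈ InnerM (Dm n) k ∧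
    ¬ ∃ e : ∀ i, Fin (n i + 1) → ℂ,
      (∀ i, fp (pj (fun q => io (a q)) i) = Polynomial.C (io (a ⟨i, Fin.last (n i + 1)⟩)) * OH.rp (e i) ∧
        ∀ r s, r < s → (e i r).re + (e i r).im < (e i s).re + (e i s).im) ∧
      (PM n (fun q => io (a q)) e, tpi) ∈ TorG n ∧ GoodK n k K io (T ^ k) ξ (PM n (fun q => io (a q)) e)}

theorem ExK_sub {k : ℕ} (hk : 0 < k) (K : Type) [Field K] [NumberField K] (io : K →+* ℂ) (ξ : Fin k → ℂ) (T : ℝ) :
    ExK n k K io ξ T ⊆ (ahF n).Exceptional k K io ξ T := by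
  rintro a ⟨h1, h2, h3⟩
  rw [Dm_eq] at h2
  refine ⟨h1, h2, fun h4 => h3 ?_⟩
  have hU : (fun q => io (a q)) ∈ UU n := innerM_sub _ hk h2
  have h5 := good_of_generic h4
  have h6 : PM n (fun q => io (a q)) (fun i => er (pj (fun q => io (a q)) i)) =
      fun i => PA (pj (fun q => io (a q)) i) := by
    funext i
    exact PF_eq (hU i)
  refine ⟨fun i => er (pj (fun q => io (a q)) i), fun i => ⟨fp_er (hU i), er_order (hU i)⟩, ?_, ?_⟩
  · rw [h6]
    exact ⟨tpi_ne, fun i => PA_riemann (hU i)⟩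
  · rw [h6]
    exact h5

/-- **Main theorem.** -/
theorem main [Nonempty ι] (n : ι → ℕ) :
    ∃ (ω : ℝ → ℕ) (T₀ : ℝ), Tendsto ω atTop atTop ∧ Monotone ω ∧ ∀ T, T₀ ≤ T → 0 < ω T ∧
      ∀ (K : Type) [Field K] [NumberField K], Module.finrank ℚ K ≤ ω T → ∀ (io : K →+* ℂ) (ξ : Fin (ω T) → ℂ),
        Cov ⌊T ^ ((ω T : ℝ)⁻¹)⌋₊ ⌊T ^ ((ω T : ℝ)⁻¹)⌋₊
          ((fun (a : (Σ i, Fin (n i + 2)) → K) q => io (a q)) '' ExK n (ω T) K io ξ T) ∧
        (ExK n (ω T) K io ξ T).Finite ∧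
        ((ExK n (ω T) K io ξ T).ncard : ℝ) ≤
          T ^ ((ω T : ℝ)⁻¹) * ({x : K | Y120.HtLe K T x}.ncard : ℝ) ^ (Fintype.card (Σ i, Fin (n i + 2)) - 1) := by
  obtain ⟨i0⟩ := ‹Nonempty ι›
  have : Nonempty (Σ i, Fin (n i + 2)) := ⟨⟨i0, 0⟩⟩
  obtain ⟨ω, T₀, h1, h2, H⟩ := (ahF n).main
  refine ⟨ω, T₀, h1, h2, fun T hT => ?_⟩
  obtain ⟨h3, h4⟩ := H T hT
  refine ⟨h3, fun K _ _ hK io ξ => ?_⟩
  obtain ⟨h5, h6, h7⟩ := h4 K hK io ξ
  have hsub := ExK_sub (n := n) h3 K io ξ T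
  refine ⟨h5.mono le_rfl le_rfl (Set.image_mono hsub), h6.subset hsub, le_trans ?_ h7⟩
  exact_mod_cast Set.ncard_le_ncard hsub h6

end Pool.Agent.N121.KH
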